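import Pool.Agent.R473.FV.Cor
import Pool.Agent.TH900.YM.Meas

/-!
# Finite-state predictors for the digits of `ζ(9), ζ(11), …, ζ(21)`

One of the seven numbers `ζ(9), …, ζ(21)` is irrational (`OddZeta9To21`), that is, its digits are not eventually
periodic in any base. Here it is proved that one of the seven numbers has digits which, in every base, no finite
automaton predicts with few errors.

A predictor with `Q` states reads the digits of a number one after the other and predicts each next digit from its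
state. If the digits of `x` in base `b` are eventually periodic, that is if `x` is rational, then some predictor makes
only finitely many errors. We prove:

(1) for seven predictors, the `j`-th of which works on the digits of `ζ(2j + 9)` in a base `b j` of its own, an
inequality between the lengths, the numbers of states and the total number of errors;

(2) for every `θ < 1` one of the seven numbers is such that in every base, for infinitely many `N`, every predictor
with at most `N^θ` states makes more than `((1 - θ)/63) log N` errors on the first `N` digits;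

(3) one of the seven numbers has this property for all `θ < 1`, with some constant `c(θ) > 0` in place of
`(1 - θ)/63`.

Proof: the simultaneous measure of the starting library (`MeasureZeta9To21`, exponent `1038`) and
`Pool.Agent.R473.FV` (starting library). Without errors an automaton is autonomous and its state runs into a cycle,
which gives a rational approximation of the corresponding number; the approximations of the seven numbers are
combined, on the common time scale `n log b`.
-/

set_option autoImplicit false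

open Finset

namespace Pool.Agent.Results.MP_db0fbf_nt.FiniteStatePredictors

/-- the `i`-th digit of `x` after the point in base `b` -/
noncomputable def digit (b : ℕ) (x : ℝ) (i : ℕ) : ℤ := ⌊x * (b : ℝ) ^ i⌋ % (b : ℤ)

/-- A predictor: a finite automaton with `Q` states, transitions `δ`, initial state `q₀` and
predictions `out`. -/
structure Predictor where
  /-- the number of states -/
  Q : ℕ
  /-- the next state -/
  δ : Fin Q → ℤ → Fin Q
  /-- the initial state -/
  q₀ : Fin Q
  /-- the prediction -/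
  out : Fin Q → ℤ

/-- the state of the predictor after it has read `d 1, …, d n` -/
def Predictor.state (M : Predictor) (d : ℕ → ℤ) : ℕ → Fin M.Q
  | 0 => M.q₀
  | n + 1 => M.δ (M.state d n) (d (n + 1))

/-- the number of errors on the first `N` terms of `d`: the number of `n < N` such that the
prediction made after reading `d 1, …, d n` is not `d (n + 1)` -/
def Predictor.errors (M : Predictor) (d : ℕ → ℤ) (N : ℕ) : ℕ :=
  ((range N).filter fun n => M.out (M.state d n) ≠ d (n + 1)).card

/-- in every base `b ≥ 2`, for infinitely many `N`, all predictors with at most `N ^ θ` states make more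
than `c log N` errors on the first `N` digits of `x` -/
def Hard (θ c x : ℝ) : Prop :=
  ∀ b : ℕ, 2 ≤ b → ∀ N₀ : ℕ, ∃ N : ℕ, N₀ ≤ N ∧ ∀ M : Predictor, (M.Q : ℝ) ≤ (N : ℝ) ^ θ →
    c * Real.log N < M.errors (digit b x) N

/-- the numbers `ζ(9), ζ(11), …, ζ(21)`, for `i = 0, …, 6` -/
noncomputable def number (i : Fin 7) : ℝ := ∑' n : ℕ, 1 / ((n : ℝ) + 1) ^ (2 * (i : ℕ) + 9)

theorem state_eq (M : Predictor) (d : ℕ → ℤ) (n : ℕ) :
    M.state d n = Pool.Agent.R473.FP.run M.δ M.q₀ d n := by
  induction n with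
  | zero => rfl
  | succ n ih => rw [Predictor.state, ih]; rfl

theorem errors_eq (M : Predictor) (b : ℕ) (x : ℝ) (N : ℕ) :
    M.errors (digit b x) N =
      Pool.Agent.R473.FP.errors M.δ M.q₀ M.out (Pool.Agent.H831R3.LC.dig x b) N := by
  unfold Predictor.errors Pool.Agent.R473.FP.errors
  congr 1
  apply Finset.filter_congr
  intro n _
  rw [state_eq]
  rfl

theorem Hard.mono {θ θ' c c' x : ℝ} (h : Hard θ c x) (hθ : θ' ≤ θ) (hc : c' ≤ c) : Hard θ' c' x := by
  intro b hb N₀
  obtain ⟨N, hN, h1⟩ := h b hb (max N₀ 1)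
  have hN1 : 1 ≤ N := (le_max_right _ _).trans hN
  have hNR : (1 : ℝ) ≤ N := by exact_mod_cast hN1
  refine ⟨N, (le_max_left _ _).trans hN, fun M hM => ?_⟩
  have h2 := h1 M (hM.trans (Real.rpow_le_rpow_of_exponent_le hNR hθ))
  have h3 := Real.log_nonneg hNR
  nlinarith

theorem log_num : 7 * Real.log ((7 : ℝ) * 1038) < 63 := by
  suffices h : Real.log ((7 : ℝ) * 1038) < 9 by
    generalize Real.log (7 * 1038) = t at h ⊢
    linarith
  rw [Real.log_lt_iff_lt_exp (by positivity)]
  have h2 : Real.exp 9 = Real.exp 1 ^ 9 := by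
    rw [← Real.exp_nat_mul]
    norm_num
  rw [h2]
  have h3 := Real.exp_one_gt_d9
  calc (7 * 1038 : ℝ) < 2.7182818283 ^ 9 := by norm_num
    _ ≤ _ := pow_le_pow_left₀ (by norm_num) h3.le 9

/-- the simultaneous measure -/
theorem meas : ∃ c : ℝ, 0 < c ∧ ∀ q : ℕ, 1 ≤ q → ∀ p : Fin 7 → ℤ,
    ∃ j, c ≤ (q : ℝ) ^ ((1038 : ℝ) - 1) * |(q : ℝ) * number j - p j| := by
  obtain ⟨c, hc, h⟩ := Pool.Agent.TH900.YM.measure
  refine ⟨c, hc, fun q hq p => ?_⟩
  have hq0 : (0 : ℝ) < q := by exact_mod_cast hq
  obtain ⟨j, hj, hv⟩ := h (fun j => if hj : (j - 9) / 2 < 7 then p ⟨(j - 9) / 2, hj⟩ else 0) q hq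
  have e1 : (q : ℝ) ^ ((1038 : ℝ) - 1) = (q : ℝ) ^ 1037 := by
    rw [← Real.rpow_natCast]
    norm_num
  have key : ∀ i : Fin 7, j = 2 * (i : ℕ) + 9 →
      ∃ i, c ≤ (q : ℝ) ^ ((1038 : ℝ) - 1) * |(q : ℝ) * number i - p i| := by
    intro i hij
    refine ⟨i, ?_⟩
    subst hij
    have h1 : (2 * (i : ℕ) + 9 - 9) / 2 = i := by omega
    have h2 : (2 * (i : ℕ) + 9 - 9) / 2 < 7 := by omega
    rw [dif_pos h2] at hv
    have h3 : (⟨(2 * (i : ℕ) + 9 - 9) / 2, h2⟩ : Fin 7) = i := Fin.ext h1
    rw [h3] at hv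
    have h4 : c / (q : ℝ) ^ 1038 ≤ |number i - (p i : ℝ) / q| := hv
    rw [div_le_iff₀ (by positivity)] at h4
    have e2 : |(q : ℝ) * number i - p i| = q * |number i - (p i : ℝ) / q| := by
      nth_rewrite 2 [← abs_of_pos hq0]
      rw [← abs_mul]
      congr 1
      field_simp
    rw [e1, e2]
    calc c ≤ |number i - (p i : ℝ) / q| * (q : ℝ) ^ 1038 := h4
      _ = _ := by ring
  fin_cases hj
  · exact key 0 rfl
  · exact key 1 rfl
  · exact key 2 rfl
  · exact key 3 rfl
  · exact key 4 rfl
  · exact key 5 rfl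
  · exact key 6 rfl

/-- **Predicting the digits of `ζ(9), ζ(11), …, ζ(21)`.** -/
theorem result : (∀ i : Fin 7, ((number i : ℝ) : ℂ) = riemannZeta ((2 * (i : ℕ) + 9 : ℕ) : ℂ)) ∧
    -- (1) seven predictors, one for each number, each in a base of its own
    (∃ C : ℝ, ∀ (b : Fin 7 → ℕ) (M : Fin 7 → Predictor) (N : Fin 7 → ℕ), (∀ j, 2 ≤ b j) →
      ∃ j, N j * Real.log (b j) ≤
        (∑ i ∈ range (∑ k, (M k).errors (digit (b k) (number k)) (N k) + 1), (7266 : ℝ) ^ i) *
          (1038 * ∑ k, (((M k).Q : ℝ) + 1) * Real.log (b k) + C)) ∧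
    -- (2) for every `θ < 1` one of the numbers is hard for all predictors in all bases
    (∀ θ : ℝ, 0 ≤ θ → θ < 1 → ∃ j, Hard θ ((1 - θ) / 63) (number j)) ∧
    -- (3) one of the numbers is hard for all `θ < 1`
    ∃ j, ∀ θ : ℝ, θ < 1 → ∃ c : ℝ, 0 < c ∧ Hard θ c (number j) := by
  obtain ⟨c0, hc0, hM⟩ := meas
  have hard : ∀ θ : ℝ, 0 ≤ θ → θ < 1 → ∃ j, Hard θ ((1 - θ) / 63) (number j) := by
    intro θ h0 h1
    have h2 : 0 < 1 - θ := by linarith
    obtain ⟨j, hj⟩ := Pool.Agent.R473.FV.some_number number 1038 c0 (by norm_num) hc0 hM θ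
      ((1 - θ) / 63) h0 (by positivity) (by
        rw [Fintype.card_fin, div_mul_eq_mul_div, div_lt_iff₀ (by norm_num)]
        push_cast
        exact mul_lt_mul_of_pos_left log_num h2)
    refine ⟨j, fun b hb N₀ => ?_⟩
    obtain ⟨N, hN, h4⟩ := hj b hb N₀
    refine ⟨N, hN, fun M hQ => ?_⟩
    rw [errors_eq]
    exact h4 M.Q M.δ M.q₀ M.out hQ
  refine ⟨fun i => ?_, ⟨Real.log 2 + |Real.log c0|, fun b M N hb => ?_⟩, hard, ?_⟩
  · rw [zeta_eq_tsum_one_div_nat_add_one_cpow (by simp; linarith), number, Complex.ofReal_tsum]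
    refine tsum_congr fun n => ?_
    rw [Complex.cpow_natCast]
    push_cast
    rfl
  · obtain ⟨j, hj⟩ := Pool.Agent.R473.FV.separate number 1038 c0 (by norm_num) hc0 hM b hb
      (fun k => (M k).Q) (fun k => (M k).δ) (fun k => (M k).q₀) (fun k => (M k).out) N
    refine ⟨j, ?_⟩
    rw [Fintype.card_fin] at hj
    have e : ((7 : ℕ) : ℝ) * 1038 = 7266 := by norm_num
    rw [e] at hj
    simp only [errors_eq]
    exact hj
  · have h1 : ∀ n : ℕ, ∃ j, Hard (1 - 1 / ((n : ℝ) + 1)) (1 / ((n : ℝ) + 1) / 63) (number j) := by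
      intro n
      have hn : (0 : ℝ) < (n : ℝ) + 1 := by positivity
      have h3 : (0 : ℝ) < 1 / ((n : ℝ) + 1) := by positivity
      have h4 : 1 / ((n : ℝ) + 1) ≤ 1 := by
        rw [div_le_one hn]
        linarith [Nat.cast_nonneg (α := ℝ) n]
      obtain ⟨j, hj⟩ := hard (1 - 1 / ((n : ℝ) + 1)) (by linarith) (by linarith)
      refine ⟨j, ?_⟩
      rw [sub_sub_cancel] at hj
      exact hj
    choose f hf using h1
    obtain ⟨j, hj⟩ := Finite.exists_infinite_fiber f
    refine ⟨j, fun θ hθ => ?_⟩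
    have h2 : 0 < 1 - θ := by linarith
    obtain ⟨m, hm⟩ := exists_nat_one_div_lt h2
    obtain ⟨n, hn, hmn⟩ : ∃ n, f n = j ∧ m ≤ n := by
      have hinf : (f ⁻¹' {j}).Infinite := Set.infinite_coe_iff.1 hj
      obtain ⟨n, hn, hmn⟩ := hinf.exists_gt m
      exact ⟨n, hn, hmn.le⟩
    have hmn' : (m : ℝ) ≤ n := by exact_mod_cast hmn
    have hm0 : (0 : ℝ) < (m : ℝ) + 1 := by positivity
    have h5 : 1 / ((n : ℝ) + 1) ≤ 1 / ((m : ℝ) + 1) :=
      one_div_le_one_div_of_le hm0 (by linarith)
    refine ⟨1 / ((n : ℝ) + 1) / 63, by positivity, ?_⟩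
    have h6 := hf n
    rw [hn] at h6
    exact h6.mono (by linarith) le_rfl

end Pool.Agent.Results.MP_db0fbf_nt.FiniteStatePredictors
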