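import Mathlib
import Pool.Agent.N778.CH.Damp

set_option autoImplicit false

/-!
# Zeta values and damped zeta values: at most one exception for every odd `k`

For an integer `k ≥ 2` and a complex number `x` let `T_k(x)` be the Poisson mean of the tails of `ζ(k)`,
`T_k(x) = exp (-x) * ∑_j x^j/j! * ∑_{n > j} 1/n^k`, so that `T_k(0) = ζ(k)`.

For complex numbers `a_1, …, a_n` with `a_n ≠ 0` let `I(a_1, …, a_n)` be the iterated integral of the forms
`ω_{a_1}(t_1), …, ω_{a_n}(t_n)` over `1 > t_1 > … > t_n > 0`, where `ω_0 = dt / t` and `ω_a = (exp (a t) - 1) dt / t` for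
`a ≠ 0`. Let `𝓚` be the field which is generated by all algebraic numbers, all numbers `exp b`, `b` algebraic, and
all numbers `I(a_1, …, a_n)` with algebraic `a_1, …, a_n`, no two nonzero ones of which have sum zero.

Let `X` be a set of algebraic numbers `x` such that `x + y ≠ 0` for all `x, y` in `X` (for example the set of the
positive algebraic numbers).

(1) Let `(z_b)` be a family of complex numbers (with any set of indices), and for every `k ≥ 2` let `β(k)` be an index such
that `ζ(k)` is algebraic over `𝓚(z_{β(k)})`. The numbers `z_b` and `T_k(x)`, `β(k) = b`, `x ∈ X`, form the block of `b`. One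
can leave out at most one number in every block, such that all the remaining numbers (of all blocks together) are
algebraically independent over `𝓚`.

The constants `c_0 = π`, `c_k = ζ(k)` (`k ≥ 3` odd) belong to the indices `k = 0, 3, 5, 7, …`. The index of `T_k(x)` is
`k` for odd `k`, and `0` for even `k`.

(2) There is a set `S` such that the numbers `c_k` with an index `k` in `S` and the numbers `T_k(x)`, `k ≥ 2`, `x ∈ X`, whose
index is not in `S` are algebraically independent over `𝓚`. We call such a set `S` independent. For every index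
which is not in `S` the family of the numbers `T_k(x)` with this index is complete: no number has to be left out.

(3) Every relation gives a complete family. Let `S` be an independent set, `Q` a finite set of indices, and let the
constants `c_k`, `k ∈ Q`, be algebraic over `𝓚(y_1, …, y_r)`. Then at least `|Q| - r` elements of `Q` are not in `S`. For
example, if `π, ζ(3), ζ(5), ζ(7), ζ(9)` are algebraically dependent over `𝓚` (so it is if `ζ(9)` is rational) then one
of the indices `0, 3, 5, 7, 9` is not in `S`. If `ζ(9)` is rational, or algebraic over `𝓚`, then `9` is not in `S`, so that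
the numbers `T_9(x)`, `x ∈ X`, are algebraically independent over `𝓚`, also together with all the other numbers in (2).
-/

namespace Pool.Agent.Results.MP_db0fbf_nt.OneExceptionDamped

open Set

/-- `T_k(x)` -/
noncomputable def T (k : ℕ) (x : ℂ) : ℂ :=
  Complex.exp (-x) * ∑' j : ℕ, x ^ j / j.factorial * ∑' i : ℕ, 1 / ((i : ℂ) + j + 1) ^ k

/-- the iterated integral of `ω_{a_1}(t_1), …, ω_{a_n}(t_n)` over `t > t_1 > … > t_n > 0` -/
noncomputable def iterated : List ℂ → ℝ → ℂ
  | [], _ => 1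
  | a :: v, t => ∫ s in (0 : ℝ)..t, (if a = 0 then 1 else Complex.exp (a * s) - 1) * iterated v s / s

/-- `I(a_1, …, a_n)` -/
noncomputable def I (w : List ℂ) : ℂ := iterated w 1

/-- the entries are algebraic, the last one is not zero, no two nonzero entries have sum zero -/
def Admissible (w : List ℂ) : Prop :=
  (∀ a ∈ w, IsAlgebraic ℚ a) ∧ (∀ h : w ≠ [], w.getLast h ≠ 0) ∧ ∀ a ∈ w, a ≠ 0 → -a ∉ w

/-- the field `𝓚` -/
noncomputable def baseField : IntermediateField ℚ ℂ := IntermediateField.adjoin ℚ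
  ({z | IsAlgebraic ℚ z} ∪ {z | ∃ b : ℂ, IsAlgebraic ℚ b ∧ z = Complex.exp b} ∪
    {z | ∃ w : List ℂ, Admissible w ∧ z = I w})

/-- the field `𝓚(y : y ∈ Y)` -/
noncomputable def fieldWith (Y : Set ℂ) : IntermediateField baseField ℂ := IntermediateField.adjoin baseField Y

/-- the pairs `(k, x)`, `k ≥ 2`, `x ∈ X` -/
abbrev Pair (X : Set ℂ) : Type := {p : ℕ × ℂ // 2 ≤ p.1 ∧ p.2 ∈ X}

/-- the condition on the set `X` -/
def Points (X : Set ℂ) : Prop := ∀ x ∈ X, IsAlgebraic ℚ x ∧ ∀ y ∈ X, x + y ≠ 0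

/-- `k` is an index: `0` or an odd number `≥ 3` -/
def IsIndex (k : ℕ) : Prop := k = 0 ∨ 3 ≤ k ∧ Odd k

/-- the constants: `π` and `ζ(k)` -/
noncomputable def const (k : ℕ) : ℂ := if k = 0 then (Real.pi : ℂ) else riemannZeta k

/-- the index of the numbers `T_k(x)` -/
def index (k : ℕ) : ℕ := if Even k then 0 else k

/-- the numbers `c_k` with an index `k ∈ S` and the numbers `T_k(x)`, `x ∈ X`, with an index which is not in `S` are
algebraically independent over `𝓚` -/
def Independent (X : Set ℂ) (S : Set ℕ) : Prop :=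
  AlgebraicIndependent baseField (Sum.elim (fun k : {k : ℕ // IsIndex k ∧ k ∈ S} => const k)
    (fun p : {p : ℕ × ℂ // (2 ≤ p.1 ∧ p.2 ∈ X) ∧ index p.1 ∉ S} => T p.1.1 p.1.2))

open Pool.Agent.N902.EW (II KK PT clf mem_clf subset_clf clf_mono card_le_eRk)

theorem iterated_eq (w : List ℂ) : ∀ t : ℝ, iterated w t = II w t := by
  induction w with
  | nil => intro t; rfl
  | cons a v ih =>
    intro t
    rw [iterated, II]
    refine intervalIntegral.integral_congr fun s _ => ?_
    show (if a = 0 then 1 else Complex.exp (a * s) - 1) * iterated v s / s = _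
    rw [ih]

theorem baseField_eq : baseField = KK := by
  rw [baseField, KK]
  congr 2
  ext z
  constructor
  · rintro ⟨w, hw, rfl⟩
    exact ⟨w, ⟨hw.1, hw.2.1⟩, hw.2.2, iterated_eq w 1⟩
  · rintro ⟨w, hw, hno, rfl⟩
    exact ⟨w, ⟨hw.1, hw.2, hno⟩, (iterated_eq w 1).symm⟩

theorem ind_iff {ι : Type} (z : ι → ℂ) : AlgebraicIndependent baseField z ↔ AlgebraicIndependent KK z := by
  rw [baseField_eq]

theorem alg_iff (Y : Set ℂ) (z : ℂ) : IsAlgebraic (fieldWith Y) z ↔ IsAlgebraic (IntermediateField.adjoin KK Y) z := by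
  unfold fieldWith
  rw [baseField_eq]

theorem zero_value {k : ℕ} (hk : 2 ≤ k) : T k 0 = riemannZeta k := Pool.Agent.N778.CH.PT_zero' hk

theorem part1 {X : Set ℂ} (hX : Points X) {B : Type} (z : B → ℂ) (β : ℕ → B)
    (hβ : ∀ k, 2 ≤ k → IsAlgebraic (fieldWith {z (β k)}) (riemannZeta k)) :
    ∃ N : Set (B ⊕ Pair X), (∀ p ∈ N, ∀ q ∈ N, Sum.elim id (fun p : Pair X => β p.1.1) p =
        Sum.elim id (fun p : Pair X => β p.1.1) q → p = q) ∧
      AlgebraicIndependent baseField (fun p : {p // p ∉ N} => Sum.elim z (fun p : Pair X => T p.1.1 p.1.2) p.1) := by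
  obtain ⟨C, hC, hC2⟩ := Pool.Agent.N778.CH.damped X hX z β (fun k hk => (alg_iff _ _).1 (hβ k hk))
  refine ⟨Cᶜ, fun p hp q hq h => hC p q hp hq h, ?_⟩
  rw [ind_iff]
  have h1 := hC2.comp (fun p : {p // p ∉ Cᶜ} => (⟨p.1, not_not.1 p.2⟩ : C)) (by
    intro p q h
    exact Subtype.ext (congrArg (fun z : C => z.1) h))
  exact h1

theorem const_zeta {k : ℕ} (hk : 2 ≤ k) :
    IsAlgebraic (fieldWith {const (index k)}) (riemannZeta k) := by
  rw [alg_iff, ← mem_clf]
  have h0 : const (index k) ∈ clf KK {const (index k)} := subset_clf _ rfl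
  by_cases h : Even k
  · have h1 : const (index k) = (Real.pi : ℂ) := by rw [index, if_pos h, const, if_pos rfl]
    obtain ⟨m, hm⟩ := h
    have h2 : k = 2 * m := by omega
    rw [h1] at h0 ⊢
    rw [h2]
    exact Pool.Agent.N778.CH.zeta_even_mem' h0 (by omega)
  · have h1 : const (index k) = riemannZeta k := by rw [index, if_neg h, const, if_neg (by omega)]
    rw [h1] at h0 ⊢
    exact h0

theorem part2 {X : Set ℂ} (hX : Points X) : ∃ S : Set ℕ, Independent X S := by
  obtain ⟨N, hN, h⟩ := part1 hX const index (fun k hk => const_zeta hk)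
  refine ⟨{k | Sum.inl k ∉ N}, ?_⟩
  rw [Independent]
  have h2 : ∀ p : {p : ℕ × ℂ // (2 ≤ p.1 ∧ p.2 ∈ X) ∧ index p.1 ∉ {k | (Sum.inl k : ℕ ⊕ Pair X) ∉ N}},
      (Sum.inr ⟨p.1, p.2.1⟩ : ℕ ⊕ Pair X) ∉ N := by
    intro p h3
    have h4 : (Sum.inl (index p.1.1) : ℕ ⊕ Pair X) ∈ N := by
      by_contra h5
      exact p.2.2 h5
    have h5 := hN _ h3 _ h4 rfl
    exact absurd h5 (by simp)
  have h3 := h.comp (Sum.elim
    (fun k : {k : ℕ // IsIndex k ∧ k ∈ {k | (Sum.inl k : ℕ ⊕ Pair X) ∉ N}} => (⟨Sum.inl k.1, k.2.2⟩ : {p // p ∉ N}))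
    (fun p : {p : ℕ × ℂ // (2 ≤ p.1 ∧ p.2 ∈ X) ∧ index p.1 ∉ {k | (Sum.inl k : ℕ ⊕ Pair X) ∉ N}} =>
      ⟨Sum.inr ⟨p.1, p.2.1⟩, h2 p⟩)) (by
    rintro (a | p) (b | q) hh
    · have h4 := Sum.inl_injective (congrArg (fun z : {p // p ∉ N} => z.1) hh)
      exact congrArg Sum.inl (Subtype.ext h4)
    · have h4 := congrArg (fun z : {p // p ∉ N} => z.1) hh
      exact absurd h4 (by simp)
    · have h4 := congrArg (fun z : {p // p ∉ N} => z.1) hh
      exact absurd h4 (by simp)
    · have h4 := Sum.inr_injective (congrArg (fun z : {p // p ∉ N} => z.1) hh)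
      exact congrArg Sum.inr (Subtype.ext (congrArg (fun z : Pair X => z.1) h4)))
  convert h3 using 1
  funext i
  rcases i with a | p <;> rfl

theorem part3 {X : Set ℂ} {S : Set ℕ} (hS : Independent X S) (Q : Finset ℕ) (hQ : ∀ k ∈ Q, IsIndex k) {r : ℕ}
    (y : Fin r → ℂ) (hy : ∀ k ∈ Q, IsAlgebraic (fieldWith (range y)) (const k)) :
    Q.card ≤ {k ∈ (Q : Set ℕ) | k ∉ S}.ncard + r := by
  classical
  have h0 : AlgebraicIndependent KK (fun k : {k : ℕ // IsIndex k ∧ k ∈ S} => const k) := by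
    have h1 := (ind_iff _).1 hS
    exact h1.comp Sum.inl Sum.inl_injective
  let K : Finset ℕ := Q.filter fun k => k ∈ S
  have h1 := h0.comp (fun k : K => (⟨k.1, hQ _ (Finset.mem_filter.1 k.2).1, (Finset.mem_filter.1 k.2).2⟩ :
    {k : ℕ // IsIndex k ∧ k ∈ S})) (by
    intro a b h
    exact Subtype.ext (congrArg (fun z : {k : ℕ // IsIndex k ∧ k ∈ S} => z.1) h))
  have h2 := card_le_eRk h1 (T := range y) (fun k => mem_clf.2 ((alg_iff _ _).1 (hy _ (Finset.mem_filter.1 k.2).1)))
  have h3 : (Pool.Agent.N902.EW.Ma KK : Matroid ℂ).eRk (range y) ≤ (r : ℕ∞) := by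
    refine (Matroid.eRk_le_encard _ _).trans ?_
    rw [← image_univ]
    refine (encard_image_le _ _).trans ?_
    rw [encard_univ, ENat.card_eq_coe_fintype_card, Fintype.card_fin]
  have h4 : K.card ≤ r := by
    have h5 := h2.trans h3
    rw [Fintype.card_coe] at h5
    exact_mod_cast h5
  have h5 : {k ∈ (Q : Set ℕ) | k ∉ S} = ((Q.filter fun k => k ∉ S : Finset ℕ) : Set ℕ) := by
    ext k
    simp only [Finset.coe_filter, Finset.mem_coe, Set.mem_ofPred_eq]
  have h6 : K.card + (Q.filter fun k => k ∉ S).card = Q.card := Finset.card_filter_add_card_filter_not _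
  rw [h5, Set.ncard_coe_finset]
  omega

theorem result (X : Set ℂ) (hX : Points X) :
    -- `T_k(0) = ζ(k)`
    (∀ k : ℕ, 2 ≤ k → T k 0 = riemannZeta k) ∧
    -- (1)
    (∀ (B : Type) (z : B → ℂ) (β : ℕ → B), (∀ k, 2 ≤ k → IsAlgebraic (fieldWith {z (β k)}) (riemannZeta k)) →
      ∃ N : Set (B ⊕ Pair X), (∀ p ∈ N, ∀ q ∈ N, Sum.elim id (fun p : Pair X => β p.1.1) p =
          Sum.elim id (fun p : Pair X => β p.1.1) q → p = q) ∧
        AlgebraicIndependent baseField (fun p : {p // p ∉ N} => Sum.elim z (fun p : Pair X => T p.1.1 p.1.2) p.1)) ∧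
    -- (2)
    (∃ S : Set ℕ, Independent X S) ∧
    -- (3)
    (∀ S : Set ℕ, Independent X S → ∀ Q : Finset ℕ, (∀ k ∈ Q, IsIndex k) → ∀ (r : ℕ) (y : Fin r → ℂ),
      (∀ k ∈ Q, IsAlgebraic (fieldWith (range y)) (const k)) → Q.card ≤ {k ∈ (Q : Set ℕ) | k ∉ S}.ncard + r) :=
  ⟨fun _ hk => zero_value hk, fun _ z β hβ => part1 hX z β hβ, part2 hX, fun _ hS Q hQ _ y hy => part3 hS Q hQ y hy⟩

end Pool.Agent.Results.MP_db0fbf_nt.OneExceptionDamped
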