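import Pool.Agent.N743.SS.ZtPair
import Pool.Agent.N743.Dg.Asym

/-!
# `ζ(9)` and the Poisson means of its tails: an explicit joint measure

For `k ≥ 2` and `x ≥ 0` let
`T_k(x) = 1/(k-1)! ∫_0^∞ t^(k-1) / (e^t - 1) exp (-x (1 - e^(-t))) dt
  = e^(-x) ∑_j x^j / j! ∑_{n > j} 1 / n^k`,
the mean of the tail `∑_{n > N} n^(-k)` for a Poisson variable `N` with mean `x`; so `T_k(0) = ζ(k)`.

For rational `x > 0` we show that `ζ(k)` and `T_k(x)` cannot both be well approximated by rational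
numbers `p / q` and `r / s`: the larger error is at least `C (q s)^(-(k + 2 + ε))`; for `ζ(9)` the exponent is
`11 + ε`. Consequences are explicit windows of scales without good rational approximations to any of the
two numbers, and a lower bound for the linear complexity of the digits of the two numbers, in two bases.

The proof: `ζ(k) - T_k(x) = e^(-x) ∑ H_n^(k) x^n / n!` is the value of an E-function. It is one of `k + 2` functions,
linearly independent over `ℚ(x)`, which satisfy a system of linear differential equations; the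
quantitative form of the method of Siegel and Shidlovskii (`SS.E_meas`) gives the exponent `k + 1 + ε` for their
linear forms.
-/

set_option autoImplicit false

open MeasureTheory Set

namespace Pool.Agent.Results.MP_db0fbf_nt.PoissonTailsMeasure

open Pool.Agent.N743 Pool.Agent.N743.SS

/-- `ζ(k) = ∑ 1 / n^k` -/
noncomputable def zeta (k : ℕ) : ℝ := ∑' n : ℕ, 1 / ((n : ℝ) + 1) ^ k

/-- `T_k(x) = 1/(k-1)! ∫_0^∞ t^(k-1) / (e^t - 1) exp (-x (1 - e^(-t))) dt` -/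
noncomputable def T (k : ℕ) (x : ℝ) : ℝ :=
  1 / ((k - 1).factorial : ℝ) * ∫ t in Ioi (0 : ℝ), t ^ (k - 1) / (Real.exp t - 1) * Real.exp (-(x * (1 - Real.exp (-t))))

/-- `s 1, …, s L` satisfy the linear recurrence `s (i + m) = c 0 * s i + … + c (m - 1) * s (i + m - 1)`,
`1 ≤ i ≤ L - m`. -/
def Recurrence (s : ℕ → ℤ) (c : ℕ → ℚ) (L m : ℕ) : Prop :=
  ∀ i : ℕ, 1 ≤ i → i + m ≤ L → (s (i + m) : ℚ) = ∑ j ∈ Finset.range m, c j * (s (i + j) : ℚ)

/-- the linear complexity `N(x; b, L)` of the first `L` digits `⌊x b ^ i⌋ mod b`, `1 ≤ i ≤ L`, of `x` in base `b`: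
the least order `m` of a linear recurrence over `ℚ` satisfied by them -/
noncomputable def N (x : ℝ) (b L : ℕ) : ℕ :=
  sInf {m | ∃ c : ℕ → ℚ, Recurrence (fun i => ⌊x * (b : ℝ) ^ i⌋ % (b : ℤ)) c L m}

/-- `m + C √((m + 1) log (m + 2))` -/
noncomputable def F (C : ℝ) (m : ℕ) : ℝ :=
  m + C * Real.sqrt (((m : ℝ) + 1) * Real.log ((m : ℝ) + 2))

/-- **Main theorem.** For `k ≥ 2` (for instance `k = 9`): (0) `zeta k` is `ζ(k)`, and `T_k(x)` is the Poisson mean
of the tails. For all rational `x > 0`: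
(1) for every `ε > 0` there is `C > 0` with `max (|ζ(k) - p/q|, |T_k(x) - r/s|) ≥ C (q s)^(-(k + 2 + ε))` for all
fractions `p/q`, `r/s`;
(2) if `θ > 0`, `M > 1` and `(k + 2) θ (M + 1) < 1` then the scale dichotomy holds for the rational approximations of
`ζ(k)` and `T_k(x)`, with denominators at most `X ^ θ` and errors at most `1 / X`;
(3) for every `η > 0` there is `C > 0` such that for all bases `b, b'` and all lengths `L, L'`
`min(L log b, L' log b') ≤ (k + 2 + η) (F(N(ζ(k); b, L)) log b + F(N(T_k(x); b', L')) log b')`;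
(4) for every `ε > 0` and all large `L`: `N(ζ(k); b, L) + N(T_k(x); b, L) ≥ (1/(k+2) - ε) L` in all bases `b`. -/
theorem result (k : ℕ) (hk : 2 ≤ k) :
    (((zeta k : ℝ) : ℂ) = riemannZeta k ∧ T k 0 = zeta k ∧
      ∀ x : ℝ, T k x = Real.exp (-x) * ∑' j : ℕ, x ^ j / j.factorial * ∑' i : ℕ, 1 / ((i : ℝ) + j + 1) ^ k) ∧
    (∀ x : ℚ, 0 < x →
      (∀ ε : ℝ, 0 < ε → ∃ C : ℝ, 0 < C ∧ ∀ (p r : ℤ) (q s : ℕ), 0 < q → 0 < s →
        C * ((q : ℝ) * s) ^ (-((k : ℝ) + 2 + ε)) ≤ max |zeta k - p / q| |T k x - r / s|) ∧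
      (∀ θ M : ℝ, 0 < θ → 1 < M → ((k : ℝ) + 2) * θ * (M + 1) < 1 →
        Dichotomy (fun i => IsRat ((![zeta k, T k x] : Fin 2 → ℝ) i))
          (fun X i => RatNear θ X ((![zeta k, T k x] : Fin 2 → ℝ) i)) M) ∧
      (∀ η : ℝ, 0 < η → ∃ C : ℝ, 0 < C ∧ ∀ b b' : ℕ, 2 ≤ b → 2 ≤ b' → ∀ L L' : ℕ,
        min (L * Real.log b) (L' * Real.log b') ≤
          ((k : ℝ) + 2 + η) * (F C (N (zeta k) b L) * Real.log b + F C (N (T k x) b' L') * Real.log b')) ∧
      (∀ ε : ℝ, 0 < ε → ∃ L₀ : ℕ, ∀ b : ℕ, 2 ≤ b → ∀ L : ℕ, L₀ ≤ L →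
        (1 / ((k : ℝ) + 2) - ε) * L ≤ N (zeta k) b L + N (T k x) b L)) := by
  have hT : ∀ x : ℝ, T k x = Zt.Tv k x := fun x => rfl
  have hz : zeta k = Zt.zt k := rfl
  have hk0 : (0 : ℝ) ≤ k := Nat.cast_nonneg k
  refine ⟨⟨?_, ?_, fun x => ?_⟩, fun x hx => ?_⟩
  · rw [hz]; exact Zt.zt_cast hk
  · have h1 := Zt.split hk 0
    have h2 : Zt.Sv k 0 = 0 := by
      rw [Zt.Sv, mul_eq_zero]
      right
      rw [tsum_eq_single 0]
      · simp
      · intro n hn
        rw [zero_pow hn]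
        simp
    rw [h2, zero_add] at h1
    rw [hz, hT, h1]
  · rw [hT]; exact Zt.Tv_eq hk x
  · have h1 : ∀ ε : ℝ, 0 < ε → ∃ C : ℝ, 0 < C ∧ ∀ (p r : ℤ) (q s : ℕ), 0 < q → 0 < s →
        C * ((q : ℝ) * s) ^ (-((k : ℝ) + 2 + ε)) ≤ max |zeta k - p / q| |T k x - r / s| :=
      fun ε hε => Zt.pair_zeta hk x hx ε hε
    have hsim : ∀ η : ℝ, 0 < η → ∃ c₀ : ℝ, 0 < c₀ ∧ Dg.Sim 1 1 ((k : ℝ) + 2 + η) c₀ (zeta k) (T k x) := by
      intro η hη
      obtain ⟨C, hC, h⟩ := h1 η hη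
      refine ⟨C, hC, fun p r q s hq hs => ?_⟩
      rw [pow_one, pow_one]
      exact h p r q s hq hs
    refine ⟨h1, fun θ M hθ hM hMθ => ?_, fun η hη => ?_, ?_⟩
    · have h := dichotomy_pair (zeta k) (T k x) 1 1 le_rfl le_rfl ((k : ℝ) + 2) (by linarith)
        (fun ε hε => by simpa only [pow_one] using h1 ε hε) θ M hθ hM hMθ
      have e : ∀ i : Fin 2, θ / ((![1, 1] : Fin 2 → ℕ) i : ℕ) = θ := by
        intro i; fin_cases i <;> simp
      simpa only [e] using h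
    · obtain ⟨c₀, hc₀, hS⟩ := hsim η hη
      obtain ⟨C, hC, h⟩ := Dg.two 1 1 le_rfl le_rfl ((k : ℝ) + 2 + η) c₀ (by linarith) hc₀
      refine ⟨C, hC, fun b b' hb hb' L L' => ?_⟩
      have h2 := h (zeta k) (T k x) hS b b' hb hb' L L'
      rw [Nat.cast_one, one_mul, one_mul] at h2
      exact h2
    · intro ε hε
      obtain ⟨L₀, h⟩ := Dg.asym 1 1 le_rfl le_rfl ((k : ℝ) + 2) (by linarith) (zeta k) (T k x) hsim ε hε
      refine ⟨L₀, fun b hb L hL => ?_⟩
      have h2 := h b hb L hL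
      rw [Nat.cast_one, one_mul, one_mul] at h2
      exact h2

end Pool.Agent.Results.MP_db0fbf_nt.PoissonTailsMeasure
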